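import Pool.Agent.D0H26.Nilm.Main

/-!
# Powers of expansive homeomorphisms
-/

set_option autoImplicit false
set_option linter.unusedSectionVars false

open Filter Topology Set Metric

namespace Pool.Agent.D0H26.Nilm

open Pool.Agent.TH289.K (Expansive)

/-- the power of a homeomorphism -/
def powH {X : Type*} [TopologicalSpace X] (g : X ≃ₜ X) (n : ℕ) : X ≃ₜ X where
  toFun := g^[n]
  invFun := g.symm^[n]
  left_inv := Function.LeftInverse.iterate g.symm_apply_apply n
  right_inv := Function.LeftInverse.iterate g.apply_symm_apply n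
  continuous_toFun := g.continuous.iterate n
  continuous_invFun := g.symm.continuous.iterate n

/-- powers of expansive homeomorphisms are expansive -/
theorem expansive_pow {X : Type*} [TopologicalSpace X] {g : X ≃ₜ X} (hg : Expansive g) (n : ℕ)
    (hn : 1 ≤ n) : Expansive (powH g n) := by
  obtain ⟨U, hU, h⟩ := hg
  have key : ∀ f : X → X, Continuous f →
      {p : X × X | (f p.1, f p.2) ∈ U} ∈ 𝓝ˢ (diagonal X) := by
    intro f hf
    have h1 : Tendsto (fun p : X × X => (f p.1, f p.2)) (𝓝ˢ (diagonal X)) (𝓝ˢ (diagonal X)) := by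
      refine Continuous.tendsto_nhdsSet ((hf.comp continuous_fst).prodMk
        (hf.comp continuous_snd)) ?_
      rintro ⟨a, b⟩ hab
      have h2 : a = b := hab
      show f a = f b
      rw [h2]
    exact h1 hU
  refine ⟨{p | ∀ i ∈ Finset.range n, (g^[i] p.1, g^[i] p.2) ∈ U ∧
    (g.symm^[i] p.1, g.symm^[i] p.2) ∈ U}, ?_, fun x y hxy => h x y fun m => ?_⟩
  · have h1 := (Filter.eventually_all_finset (l := 𝓝ˢ (diagonal X)) (Finset.range n)
      (p := fun i p => (g^[i] p.1, g^[i] p.2) ∈ U ∧ (g.symm^[i] p.1, g.symm^[i] p.2) ∈ U)).2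
      fun i _ => Filter.inter_mem (key _ (g.continuous.iterate i))
        (key _ (g.symm.continuous.iterate i))
    exact h1
  · obtain ⟨h1, h2⟩ := hxy (m / n)
    have hi : m % n ∈ Finset.range n := Finset.mem_range.2 (Nat.mod_lt _ (by omega))
    have h3 := (h1 _ hi).1
    have h4 := (h2 _ hi).2
    have e1 : ∀ (f : X → X) (z : X), f^[m] z = f^[m % n] ((f^[n])^[m / n] z) := by
      intro f z
      rw [← Function.iterate_mul, ← Function.iterate_add_apply, Nat.mod_add_div]
    rw [e1 g x, e1 g y, e1 g.symm x, e1 g.symm y]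
    exact ⟨h3, h4⟩

end Pool.Agent.D0H26.Nilm
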