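import Pool.Agent.D0H26.Nilm.Def
import Pool.Agent.D0H26.Nil.Lift
import Pool.Agent.D0H26.Nil.Stm3
import Pool.Agent.D0H25.NIL.Cov
import Pool.Agent.D0H98.NIL.Lin
import Pool.Agent.D0H26.Fac.Top

/-!
# Expansive factors of hyperbolic nilmanifold automorphisms: the main theorems
-/

set_option autoImplicit false
set_option linter.unusedSectionVars false

open Filter Topology Set Metric

namespace Pool.Agent.D0H26.Nilm

open Pool.Agent.D0H26.Fac (HSp)
open Pool.Agent.D0H26.Nil
open Pool.Agent.TH289.K (Expansive)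

universe u v w

theorem Hyp.split {V : Type*} [NormedAddCommGroup V] [NormedSpace ℝ V] {T : V ≃ₗ[ℝ] V}
    (h : Hyp T) : Nonempty (HSp T) := by
  obtain ⟨s, u, h1, h2, h3, C, l, hl0, hl1, h4⟩ := h
  have hC : ∀ (n : ℕ) (v : V), C * l ^ n * ‖v‖ ≤ max C 0 * l ^ n * ‖v‖ := fun n v =>
    mul_le_mul_of_nonneg_right (mul_le_mul_of_nonneg_right (le_max_left _ _)
      (pow_nonneg hl0 n)) (norm_nonneg _)
  exact ⟨{ s := s
           u := u
           add := h1
           cs := h2
           cu := h3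
           C := max C 0
           l := l
           hC := le_max_right _ _
           hl0 := hl0
           hl1 := hl1
           bs := fun n v => (h4 n v).1.trans (hC n v)
           bu := fun n v => (h4 n v).2.trans (hC n v) }⟩

theorem hyp_of {V : Type*} [NormedAddCommGroup V] [NormedSpace ℝ V] {T : V ≃ₗ[ℝ] V}
    (H : HSp T) : Hyp T :=
  ⟨H.s, H.u, H.add, H.cs, H.cu, H.C, H.l, H.hl0, H.hl1, fun n v => ⟨H.bs n v, H.bu n v⟩⟩

/-- a nilmanifold automorphism as a group with a central series -/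
theorem NilAut.nb {V : Type u} [NormedAddCommGroup V] [NormedSpace ℝ V] [FiniteDimensional ℝ V]
    [Group V] (D : NilAut V) : ∃ (B : NB V) (R : ℝ), B.T = D.T ∧
    ∀ i, ∀ x ∈ B.W i, ∃ γ ∈ D.Γ, γ ∈ B.W i ∧ ‖γ * x‖ ≤ R := by
  obtain ⟨H⟩ := D.hyp.split
  obtain ⟨B₀, hB₀⟩ := D.coord.nb D.nilpotent D.T D.T_mul H
  obtain ⟨R₀, hR₀⟩ := D.cocompact
  obtain ⟨n, W, R, h1, h2, h3⟩ := malcev _ V B₀ D.coord D.Γ D.discrete R₀ hR₀ rfl
  rw [hB₀] at h3
  have hid := D.coord.ideals n W h2 (fun i => (h3 i).1) (fun i => (h3 i).2.1)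
  exact ⟨{ cmul := D.coord.cont
           line := D.coord.line
           acom := fun K hK x y h => D.coord.acom K hK x y h
           T := D.T
           Tmul := D.T_mul
           H := H
           n := n
           W := W
           W0 := h1
           Wn := h2
           Wanti := fun i => (h3 i).1
           Wid := hid
           Wcom := fun i => (h3 i).2.1
           WT := fun i => (h3 i).2.2.1 }, R, rfl, fun i => (h3 i).2.2.2⟩

section
variable {V : Type*} [NormedAddCommGroup V] [NormedSpace ℝ V] [FiniteDimensional ℝ V] [Group V]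

/-- locally injective maps of a compact nilmanifold have bounded fibres -/
theorem bdd_fib {X : Type*} (E : ExpCoord V) (Γ : Subgroup V) (R : ℝ)
    (coc : ∀ x, ∃ γ ∈ Γ, ‖γ * x‖ ≤ R) (F : V → X) (per : ∀ γ ∈ Γ, ∀ x, F (γ * x) = F x)
    (δ : ℝ) (hδ : 0 < δ) (hi : ∀ x v, ‖v‖ < δ → F (x * v) = F x → v = 0) :
    ∃ m : ℕ, ∀ a, ∃ S : Finset V, S.card ≤ m ∧ ∀ x, F x = a → ∃ s ∈ S, ∃ γ ∈ Γ, x = γ * s := by
  classical
  have hpr : ProperSpace V := FiniteDimensional.proper ℝ V
  have hc : Continuous fun p : V × V => p.1⁻¹ * p.2 :=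
    E.cont.comp ((E.cinv.comp continuous_fst).prodMk continuous_snd)
  have hu := ((isCompact_closedBall (0 : V) R).prod
    (isCompact_closedBall (0 : V) R)).uniformContinuousOn_of_continuous hc.continuousOn
  rw [Metric.uniformContinuousOn_iff] at hu
  obtain ⟨η, hη, h⟩ := hu δ hδ
  have hnear : ∀ a b : V, ‖a‖ ≤ R → ‖b‖ ≤ R → dist a b < η → ‖a⁻¹ * b‖ < δ := by
    intro a b ha hb hab
    have h1 := h (a, b) ⟨mem_closedBall_zero_iff.2 ha, mem_closedBall_zero_iff.2 hb⟩ (a, a)
      ⟨mem_closedBall_zero_iff.2 ha, mem_closedBall_zero_iff.2 ha⟩ (by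
        rw [Prod.dist_eq, dist_self, dist_comm]
        exact max_lt hη hab)
    simp only [inv_mul_cancel] at h1
    rwa [E.one_eq, dist_zero_right] at h1
  obtain ⟨t, -, htf, htc⟩ := (isCompact_closedBall (0 : V) R).finite_cover_balls (half_pos hη)
  refine ⟨htf.toFinset.card, fun a => ?_⟩
  have hex : ∀ c : V, ∃ s : V, (∃ x, ‖x‖ ≤ R ∧ x ∈ ball c (η / 2) ∧ F x = a) →
      ‖s‖ ≤ R ∧ s ∈ ball c (η / 2) ∧ F s = a := by
    intro c
    by_cases hc : ∃ x, ‖x‖ ≤ R ∧ x ∈ ball c (η / 2) ∧ F x = a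
    · obtain ⟨x, hx⟩ := hc
      exact ⟨x, fun _ => hx⟩
    · exact ⟨1, fun h' => absurd h' hc⟩
  choose s hs using hex
  refine ⟨htf.toFinset.image s, Finset.card_image_le, fun x hx => ?_⟩
  obtain ⟨γ, hγ, hn⟩ := coc x
  obtain ⟨c, hct, hcb⟩ := mem_iUnion₂.1 (htc (mem_closedBall_zero_iff.2 hn))
  have hFγ : F (γ * x) = a := by rw [per γ hγ, hx]
  obtain ⟨h1, h2, h3⟩ := hs c ⟨γ * x, hn, hcb, hFγ⟩
  refine ⟨s c, Finset.mem_image.2 ⟨c, htf.mem_toFinset.2 hct, rfl⟩, γ⁻¹, Γ.inv_mem hγ, ?_⟩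
  have hd : dist (s c) (γ * x) < η := by
    rw [mem_ball] at h2 hcb
    have := dist_triangle_right (s c) (γ * x) c
    linarith
  have h4 := hi (s c) _ (hnear _ _ h1 hn hd) (by rw [mul_inv_cancel_left, hFγ, h3])
  rw [← E.one_eq, inv_mul_eq_one] at h4
  rw [h4, inv_mul_cancel_left]

/-- uniform continuity -/
theorem uc_F {X : Type*} [MetricSpace X] (E : ExpCoord V) (Γ : Subgroup V) (R : ℝ)
    (coc : ∀ x, ∃ γ ∈ Γ, ‖γ * x‖ ≤ R) (F : V → X) (hF : Continuous F)
    (per : ∀ γ ∈ Γ, ∀ x, F (γ * x) = F x) (e : ℝ) (he : 0 < e) :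
    ∃ δ > 0, ∀ x v : V, ‖v‖ < δ → dist (F (x * v)) (F x) < e := by
  have hpr : ProperSpace V := FiniteDimensional.proper ℝ V
  have hc : Continuous fun p : V × V => F (p.1 * p.2) := hF.comp E.cont
  have huc := ((isCompact_closedBall (0 : V) R).prod
    (isCompact_closedBall (0 : V) 1)).uniformContinuousOn_of_continuous hc.continuousOn
  rw [Metric.uniformContinuousOn_iff] at huc
  obtain ⟨r₀, hr₀, h⟩ := huc _ he
  refine ⟨min r₀ 1, lt_min hr₀ one_pos, fun x v hv => ?_⟩
  obtain ⟨γ, hγ, hn⟩ := coc x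
  have h2 := h (γ * x, v) ⟨mem_closedBall_zero_iff.2 hn,
    mem_closedBall_zero_iff.2 (hv.le.trans (min_le_right _ _))⟩ (γ * x, 1)
    ⟨mem_closedBall_zero_iff.2 hn, by rw [E.one_eq]; exact mem_closedBall_self zero_le_one⟩ (by
      rw [Prod.dist_eq, dist_self, E.one_eq, dist_zero_right]
      exact max_lt hr₀ (hv.trans_le (min_le_left _ _)))
  simp only [mul_one] at h2
  rw [mul_assoc, per γ hγ, per γ hγ] at h2
  exact h2

end

/-- **Structure of the expansive factors.** -/
theorem structure_thm {Y : Type v} [TopologicalSpace Y] [CompactSpace Y]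
    [TopologicalSpace.MetrizableSpace Y] (g : Y ≃ₜ Y) (hg : Expansive g) {V : Type u}
    [NormedAddCommGroup V] [NormedSpace ℝ V] [FiniteDimensional ℝ V] [Group V] (D : NilAut V)
    (F : V → Y) (hF : Semi D g F) :
    ∃ (V' : Type u) (_ : NormedAddCommGroup V') (_ : NormedSpace ℝ V')
      (_ : FiniteDimensional ℝ V') (_ : Group V') (D' : NilAut V') (p : V →ₗ[ℝ] V')
      (F' : V' → Y), Quot D D' p ∧ Semi D' g F' ∧ (∀ x, F x = F' (p x)) ∧ BddToOne D' F' := by
  let _ : MetricSpace Y := TopologicalSpace.metrizableSpaceMetric Y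
  obtain ⟨ε, hε, hexp⟩ := Pool.Agent.D0H26.Fac.exists_eps hg
  obtain ⟨B, R, hBT, hcoc⟩ := D.nb
  obtain ⟨hF1, hF2, hF3⟩ := hF
  let N : ND V Y :=
    { toNB := B
      Γ := D.Γ
      TΓ := fun γ hγ => by rw [hBT]; exact (D.T_Γ γ).2 hγ
      TΓ' := fun γ hγ => by
        rw [← D.T_Γ, ← hBT, B.T.apply_symm_apply]
        exact hγ
      R := R
      coc := hcoc
      g := g
      F := F
      cont := hF1
      per := hF2
      equi := fun x => by rw [hBT, hF3]
      ε := ε
      hε := hε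
      exp := hexp }
  obtain ⟨V', i1, i2, i3, i4, D', m, ρ, hρ, hinj⟩ :=
    ND.final Pool.Agent.D0H98.NIL.t_LIN2 Pool.Agent.D0H98.NIL.t_LIN4
      (Pool.Agent.D0H25.NIL.split Pool.Agent.D0H98.NIL.t_LIN2) _ V N rfl
  have hcoord : ExpCoord V' := D.coord.push D'.toNB m.p m.surj m.mul
  have hm1 : m.p 1 = 1 := by rw [B.one_eq, map_zero, D'.one_eq]
  have hnil : Group.IsNilpotent V' := by
    have := D.nilpotent
    exact Group.nilpotent_of_surjective (⟨⟨m.p, hm1⟩, m.mul⟩ : V →* V') m.surj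
  have hg' : D'.g = g := m.g
  have hcoc0 : ∀ x, ∃ γ ∈ D'.Γ, ‖γ * x‖ ≤ D'.R := fun x => by
    obtain ⟨γ, hγ, -, hn⟩ := D'.coc 0 x (by rw [D'.W0]; trivial)
    exact ⟨γ, hγ, hn⟩
  let A : NilAut V' :=
    { coord := hcoord
      nilpotent := hnil
      T := D'.T
      T_mul := D'.Tmul
      hyp := hyp_of D'.H
      Γ := D'.Γ
      T_Γ := fun x => ⟨fun h => by
        have := D'.TΓ' _ h
        rwa [D'.T.symm_apply_apply] at this, D'.TΓ x⟩
      discrete := by
        refine ⟨ρ, hρ, fun γ hγ hn => ?_⟩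
        rw [D'.one_eq]
        refine hinj 1 γ hn ?_
        rw [one_mul, ← D'.per γ hγ 1, mul_one]
      cocompact := ⟨D'.R, hcoc0⟩ }
  refine ⟨V', i1, i2, i3, i4, A, m.p, D'.F, ⟨m.surj, m.mul, fun x => ?_, m.Γ⟩,
    ⟨D'.cont, D'.per, fun x => ?_⟩, fun x => (m.F x).symm, ⟨ρ, hρ, fun x v hv h => ?_⟩, ?_⟩
  · have h1 := m.T x
    have h2 : N.T = D.T := hBT
    rw [h2] at h1
    exact h1
  · have h1 := D'.equi x
    rw [hg'] at h1
    exact h1
  · rw [D'.one_eq]
    exact hinj x v hv h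
  · exact bdd_fib hcoord D'.Γ D'.R hcoc0 D'.F D'.per ρ hρ hinj

/-- **Lifts of the homeomorphisms commuting with `g` are affine.** -/
theorem affine_lift {M : Type v} [TopologicalSpace M] [T2Space M] (g : M → M) {V : Type u}
    [NormedAddCommGroup V] [NormedSpace ℝ V] [FiniteDimensional ℝ V] [Group V] (D : NilAut V)
    (F : V → M) (hF : Semi D g F) (hcov : IsCoveringMap F)
    (hfib : ∀ a, ∃ S : Finset V, ∀ x, F x = a → ∃ s ∈ S, ∃ γ ∈ D.Γ, x = γ * s)
    (φ : M ≃ₜ M) (hφ : ∀ x, φ (g x) = g (φ x)) (x y : V) (hxy : F y = φ (F x)) :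
    ∃ (c : V) (A : V ≃ₗ[ℝ] V), (∀ a b, A (a * b) = A a * A b) ∧
      y = c * A x ∧ ∀ w, F (c * A w) = φ (F w) := by
  obtain ⟨B, R, hBT, hcoc⟩ := D.nb
  obtain ⟨hF1, hF2, hF3⟩ := hF
  have hcoc0 : ∀ x, ∃ γ ∈ D.Γ, ‖γ * x‖ ≤ R := by
    intro x
    obtain ⟨γ, hγ, -, hn⟩ := hcoc 0 x (by rw [B.W0]; trivial)
    exact ⟨γ, hγ, hn⟩
  let K : DK V M :=
    { toNB := B
      Γ := D.Γ
      TΓ := fun γ hγ => by rw [hBT]; exact (D.T_Γ γ).2 hγ
      TΓ' := fun γ hγ => by
        rw [← D.T_Γ, ← hBT, B.T.apply_symm_apply]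
        exact hγ
      R := R
      coc := hcoc0
      g := g
      F := F
      cov := hcov
      per := hF2
      equi := fun x => by rw [hBT, hF3]
      fib := hfib }
  obtain ⟨τ, h1, h2⟩ := K.homeoL φ x y hxy
  obtain ⟨D', h3⟩ := K.hdL (φ := φ) hφ τ h2
  have hhom := rig Pool.Agent.D0H98.NIL.t_LIN2 leaf cen V D'
  obtain ⟨A, hA⟩ := D.coord.lin D.coord D'.δ D'.δ.continuous hhom
  have hbij : Function.Bijective A := by
    have e : (A : V → V) = D'.δ := funext hA
    rw [e]
    exact D'.δ.bijective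
  have hτ : ∀ w, τ w = τ 1 * A w := by
    intro w
    rw [hA, h3, mul_inv_cancel_left]
  refine ⟨τ 1, LinearEquiv.ofBijective A hbij, fun a b => ?_, ?_, fun w => ?_⟩
  · show A (a * b) = A a * A b
    rw [hA, hA, hA, hhom]
  · show y = τ 1 * A x
    rw [← hτ, h1]
  · show F (τ 1 * A w) = φ (F w)
    rw [← hτ]
    exact h2 w

/-- **Manifold factors.** -/
theorem cover_thm (E' : Type w) [NormedAddCommGroup E'] [NormedSpace ℝ E']
    [FiniteDimensional ℝ E'] {M : Type v} [TopologicalSpace M] [T2Space M] [CompactSpace M]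
    [ChartedSpace E' M] (g : M ≃ₜ M) {V : Type u}
    [NormedAddCommGroup V] [NormedSpace ℝ V] [FiniteDimensional ℝ V] [Group V] (D : NilAut V)
    (F : V → M) (hF : Semi D g F) (hs : Function.Surjective F)
    (hi : ∃ δ > 0, ∀ x v, ‖v‖ < δ → F (x * v) = F x → v = 1) : InfraCover D F := by
  obtain ⟨R, hR⟩ := D.cocompact
  obtain ⟨δ, hδ, hi⟩ := hi
  obtain ⟨hcov, hfib⟩ := Pool.Agent.D0H25.NIL.cov V D.coord.cont D.coord.cinv D.coord.one_eq D.Γ R
    hR E' M F hF.1 hs hF.2.1 δ hδ (fun x v hv h => by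
      rw [← D.coord.one_eq]
      exact hi x v hv h)
  refine ⟨hs, hcov, hfib, fun x y hxy => ?_⟩
  obtain ⟨c, A, h1, h2, h3⟩ := affine_lift g D F hF hcov hfib (Homeomorph.refl M)
    (fun _ => rfl) x y hxy.symm
  exact ⟨c, A, h1, h2, h3⟩

/-- **Roots.**  If a power of an expansive homeomorphism is an infranilmanifold automorphism, so is
the homeomorphism. -/
theorem root_thm (hHYP : S_HYP.{u}) (hLANG : S_LANG.{u}) (E' : Type w) [NormedAddCommGroup E']
    [NormedSpace ℝ E'] [FiniteDimensional ℝ E'] {M : Type v} [TopologicalSpace M] [T2Space M]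
    [CompactSpace M] [TopologicalSpace.MetrizableSpace M] [ChartedSpace E' M] (g : M ≃ₜ M)
    (hg : Expansive g) (n : ℕ) {V : Type u} [NormedAddCommGroup V] [NormedSpace ℝ V]
    [FiniteDimensional ℝ V] [Group V] (D : NilAut V) (F : V → M) (hF : Semi D (g^[n]) F)
    (hi : ∃ δ > 0, ∀ x v, ‖v‖ < δ → F (x * v) = F x → v = 1) (hc : InfraCover D F) :
    ∃ (D' : NilAut V) (F' : V → M), Semi D' g F' ∧ InfraCover D' F' := by
  have hpr : ProperSpace V := FiniteDimensional.proper ℝ V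
  let _ : MetricSpace M := TopologicalSpace.metrizableSpaceMetric M
  obtain ⟨ε, hε, hexp⟩ := Pool.Agent.D0H26.Fac.exists_eps hg
  obtain ⟨R, hR⟩ := D.cocompact
  obtain ⟨hs, hcov, hfib, -⟩ := hc
  obtain ⟨y, hy⟩ := hs (g (F 1))
  obtain ⟨c, A, hA, -, hcA⟩ := affine_lift (g^[n]) D F hF hcov hfib g
    (fun x => (Function.Commute.refl g).iterate_right n x) 1 y hy
  obtain ⟨δ₁, hδ₁, hi⟩ := hi
  obtain ⟨δ₂, hδ₂, huc⟩ := uc_F D.coord D.Γ R hR F hF.1 hF.2.1 ε hε
  have hAs : ∀ a b, A.symm (a * b) = A.symm a * A.symm b := by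
    intro a b
    rw [LinearEquiv.symm_apply_eq, hA, A.apply_symm_apply, A.apply_symm_apply]
  -- iterates
  have f1 : ∀ (k : ℕ) (x v : V), (fun w => c * A w)^[k] (x * v) =
      (fun w => c * A w)^[k] x * A^[k] v := by
    intro k
    induction k with
    | zero => intro x v; rfl
    | succ k ih =>
      intro x v
      rw [Function.iterate_succ_apply, Function.iterate_succ_apply, Function.iterate_succ_apply,
        ← ih]
      congr 1
      rw [hA, mul_assoc]
  have f2 : ∀ (k : ℕ) (x v : V), (fun w => A.symm (c⁻¹ * w))^[k] (x * v) =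
      (fun w => A.symm (c⁻¹ * w))^[k] x * A.symm^[k] v := by
    intro k
    induction k with
    | zero => intro x v; rfl
    | succ k ih =>
      intro x v
      rw [Function.iterate_succ_apply, Function.iterate_succ_apply, Function.iterate_succ_apply,
        ← ih]
      congr 1
      rw [← hAs, mul_assoc]
  have g1 : ∀ (k : ℕ) (x : V), F ((fun w => c * A w)^[k] x) = g^[k] (F x) := fun k x =>
    (show Function.Semiconj F (fun w => c * A w) g from hcA).iterate_right k x
  have g2 : ∀ (k : ℕ) (x : V), F ((fun w => A.symm (c⁻¹ * w))^[k] x) = g.symm^[k] (F x) :=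
    fun k x => (show Function.Semiconj F (fun w => A.symm (c⁻¹ * w)) g.symm from fun w => by
      rw [Homeomorph.eq_symm_apply, ← hcA, A.apply_symm_apply,
        mul_inv_cancel_left]).iterate_right k x
  have hno : ∀ (v : V) (K : ℝ), (∀ n : ℕ, ‖A^[n] v‖ ≤ K) →
      (∀ n : ℕ, ‖A.symm^[n] v‖ ≤ K) → v = 0 := by
    intro v K h1 h2
    have hK : 0 ≤ K := (norm_nonneg _).trans (h1 0)
    have hm : 0 < min δ₁ δ₂ := lt_min hδ₁ hδ₂
    obtain ⟨t, ht⟩ : ∃ t, t = min δ₁ δ₂ / (2 * (K + 1)) := ⟨_, rfl⟩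
    have ht0 : 0 < t := by rw [ht]; positivity
    have htK : t * (K + 1) < min δ₁ δ₂ := by
      have : t * (K + 1) = min δ₁ δ₂ / 2 := by
        rw [ht]
        field_simp
      rw [this]
      exact half_lt_self hm
    have htK' : t * K < min δ₁ δ₂ := by nlinarith
    have e1 : ∀ k : ℕ, ‖A^[k] (t • v)‖ < min δ₁ δ₂ := by
      intro k
      have : A^[k] (t • v) = t • A^[k] v := by
        induction k with
        | zero => rfl
        | succ k ih => rw [Function.iterate_succ_apply', ih, map_smul, Function.iterate_succ_apply']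
      rw [this, norm_smul, Real.norm_of_nonneg ht0.le]
      exact (mul_le_mul_of_nonneg_left (h1 k) ht0.le).trans_lt htK'
    have e2 : ∀ k : ℕ, ‖A.symm^[k] (t • v)‖ < min δ₁ δ₂ := by
      intro k
      have : A.symm^[k] (t • v) = t • A.symm^[k] v := by
        induction k with
        | zero => rfl
        | succ k ih => rw [Function.iterate_succ_apply', ih, map_smul, Function.iterate_succ_apply']
      rw [this, norm_smul, Real.norm_of_nonneg ht0.le]
      exact (mul_le_mul_of_nonneg_left (h2 k) ht0.le).trans_lt htK'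
    have h3 : F (1 * (t • v)) = F 1 := by
      apply hexp
      · intro k
        rw [← g1, ← g1, f1]
        exact (huc _ _ ((e1 k).trans_le (min_le_right _ _))).le
      · intro k
        rw [← g2, ← g2, f2]
        exact (huc _ _ ((e2 k).trans_le (min_le_right _ _))).le
    have h4 := hi 1 _ ((e1 0).trans_le (min_le_left _ _)) h3
    rw [D.coord.one_eq] at h4
    exact (smul_eq_zero.1 h4).resolve_left ht0.ne'
  obtain ⟨H⟩ := hHYP V A hno
  obtain ⟨B, hB⟩ := D.coord.nb D.nilpotent A hA H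
  obtain ⟨p, hp⟩ := hLANG V B c
  rw [hB, mul_inv_eq_iff_eq_mul] at hp
  have hF' : ∀ x, F (p * A x) = g (F (p * x)) := by
    intro x
    have h1 := hcA (p * x)
    rw [hA, ← mul_assoc, ← hp] at h1
    exact h1
  have cl : ∀ a : V, Continuous fun x : V => a * x := fun a =>
    D.coord.cont.comp (continuous_const.prodMk continuous_id)
  obtain ⟨R', hR'⟩ := (isCompact_closedBall (0 : V) R).exists_bound_of_continuousOn
    (cl p⁻¹).continuousOn
  have hinj : ∀ x v, ‖v‖ < δ₁ → F (p * (x * v)) = F (p * x) → v = 1 := by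
    intro x v hv h
    rw [← mul_assoc] at h
    exact hi _ v hv h
  let D' : NilAut V :=
    { coord := D.coord
      nilpotent := D.nilpotent
      T := A
      T_mul := hA
      hyp := hyp_of H
      Γ :=
        { carrier := {v | ∀ x, F (p * (v * x)) = F (p * x)}
          mul_mem' := by
            intro a b ha hb x
            rw [mul_assoc, ha, hb]
          one_mem' := fun x => by rw [one_mul]
          inv_mem' := by
            intro a ha x
            have := ha (a⁻¹ * x)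
            rw [mul_inv_cancel_left] at this
            exact this.symm }
      T_Γ := by
        intro v
        constructor
        · intro h x
          apply g.injective
          rw [← hF', ← hF', hA]
          exact h (A x)
        · intro h x
          have e : A v * x = A (v * A.symm x) := by rw [hA, A.apply_symm_apply]
          rw [e, hF', h, ← hF', A.apply_symm_apply]
      discrete := by
        refine ⟨δ₁, hδ₁, fun v hv hn => hinj 1 v hn ?_⟩
        have h1 := hv 1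
        rw [mul_one v] at h1
        rw [one_mul]
        exact h1
      cocompact := by
        refine ⟨R', fun x => ?_⟩
        obtain ⟨γ, hγ, hn⟩ := hR (p * x)
        refine ⟨p⁻¹ * γ * p, fun z => ?_, ?_⟩
        · have e : p * (p⁻¹ * γ * p * z) = γ * (p * z) := by group
          rw [e]
          exact hF.2.1 γ hγ _
        · have e : p⁻¹ * γ * p * x = p⁻¹ * (γ * (p * x)) := by group
          rw [e]
          exact hR' _ (mem_closedBall_zero_iff.2 hn) }
  have hS : Semi D' g (fun x => F (p * x)) := ⟨hF.1.comp (cl p), fun γ hγ x => hγ x, hF'⟩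
  refine ⟨D', fun x => F (p * x), hS, cover_thm E' g D' _ hS ?_ ⟨δ₁, hδ₁, hinj⟩⟩
  intro z
  obtain ⟨x, hx⟩ := hs z
  refine ⟨p⁻¹ * x, ?_⟩
  show F (p * (p⁻¹ * x)) = z
  rw [mul_inv_cancel_left, hx]

end Pool.Agent.D0H26.Nilm
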