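import Pool.Agent.D0H26.Nil.Mal

/-!
# Hyperbolic nilmanifold automorphisms: definitions
-/

set_option autoImplicit false
set_option linter.unusedSectionVars false

open Filter Topology Set Metric

namespace Pool.Agent.D0H26.Nilm

open Pool.Agent.D0H26.Nil (ExpCoord)

/-- `T` is a hyperbolic linear map: `v = s v + u v` is a `T`-invariant decomposition, `T` contracts
the vectors `s v` exponentially and `T⁻¹` contracts the vectors `u v` exponentially. -/
def Hyp {V : Type*} [NormedAddCommGroup V] [NormedSpace ℝ V] (T : V ≃ₗ[ℝ] V) : Prop :=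
  ∃ s u : V →ₗ[ℝ] V, (∀ v, s v + u v = v) ∧ (∀ v, s (T v) = T (s v)) ∧
    (∀ v, u (T v) = T (u v)) ∧ ∃ C l : ℝ, 0 ≤ l ∧ l < 1 ∧ ∀ (n : ℕ) (v : V),
      ‖T^[n] (s v)‖ ≤ C * l ^ n * ‖v‖ ∧ ‖T.symm^[n] (u v)‖ ≤ C * l ^ n * ‖v‖

/-- A hyperbolic automorphism of a compact nilmanifold: a (simply connected) nilpotent Lie group
`V` in exponential coordinates, an automorphism `T` of the group which is a hyperbolic linear map,
and a lattice `Γ` (a discrete cocompact subgroup) with `T Γ = Γ`. -/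
structure NilAut (V : Type*) [NormedAddCommGroup V] [NormedSpace ℝ V] [Group V] where
  coord : ExpCoord V
  nilpotent : Group.IsNilpotent V
  T : V ≃ₗ[ℝ] V
  T_mul : ∀ x y, T (x * y) = T x * T y
  hyp : Hyp T
  Γ : Subgroup V
  T_Γ : ∀ x, T x ∈ Γ ↔ x ∈ Γ
  discrete : ∃ r > 0, ∀ γ ∈ Γ, ‖γ‖ < r → γ = 1
  cocompact : ∃ R : ℝ, ∀ x, ∃ γ ∈ Γ, ‖γ * x‖ ≤ R

/-- `F` induces a continuous map `h` of the nilmanifold `Γ \ V` to `X` with `h ∘ T = g ∘ h`. -/
def Semi {V X : Type*} [NormedAddCommGroup V] [NormedSpace ℝ V] [Group V] [TopologicalSpace X]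
    (D : NilAut V) (g : X → X) (F : V → X) : Prop :=
  Continuous F ∧ (∀ γ ∈ D.Γ, ∀ x, F (γ * x) = F x) ∧ ∀ x, F (D.T x) = g (F x)

/-- `p` is a surjective homomorphism of Lie groups (a linear map in exponential coordinates) that
carries `T` to `T'` and `Γ` onto `Γ'`: the nilmanifold automorphism `D'` is a quotient of `D`. -/
def Quot {V V' : Type*} [NormedAddCommGroup V] [NormedSpace ℝ V] [Group V]
    [NormedAddCommGroup V'] [NormedSpace ℝ V'] [Group V'] (D : NilAut V) (D' : NilAut V')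
    (p : V →ₗ[ℝ] V') : Prop :=
  Function.Surjective p ∧ (∀ x y, p (x * y) = p x * p y) ∧ (∀ x, p (D.T x) = D'.T (p x)) ∧
    ∀ y, y ∈ D'.Γ ↔ ∃ γ ∈ D.Γ, p γ = y

/-- the map `Γ \ V → X` induced by `F` is locally injective, with fibres of bounded cardinality -/
def BddToOne {V X : Type*} [NormedAddCommGroup V] [NormedSpace ℝ V] [Group V]
    (D : NilAut V) (F : V → X) : Prop :=
  (∃ δ > 0, ∀ x v, ‖v‖ < δ → F (x * v) = F x → v = 1) ∧
    ∃ m : ℕ, ∀ a, ∃ S : Finset V, S.card ≤ m ∧ ∀ x, F x = a → ∃ s ∈ S, ∃ γ ∈ D.Γ, x = γ * s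

/-- `F : V → X` is an infranilmanifold covering: it is a covering map onto `X`, the fibres are finite
unions of `Γ`-orbits, and any two points of a fibre are related by an affine deck transformation
`w ↦ c * A w`, where `A` is an automorphism of the Lie group `V` and `c ∈ V`.  So `X` is the
quotient of `V` by a discrete group of affine maps that contains `Γ` with finite index. -/
def InfraCover {V X : Type*} [NormedAddCommGroup V] [NormedSpace ℝ V] [Group V]
    [TopologicalSpace X] (D : NilAut V) (F : V → X) : Prop :=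
  Function.Surjective F ∧ IsCoveringMap F ∧
    (∀ a, ∃ S : Finset V, ∀ x, F x = a → ∃ s ∈ S, ∃ γ ∈ D.Γ, x = γ * s) ∧
    ∀ x y, F x = F y → ∃ (c : V) (A : V ≃ₗ[ℝ] V), (∀ a b, A (a * b) = A a * A b) ∧
      y = c * A x ∧ ∀ w, F (c * A w) = F w

end Pool.Agent.D0H26.Nilm
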